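import Pool.Agent.Helper91.SY.Goals

/-!
# The Hamiltonian vector field (packet SY-HV of helper91)
-/

set_option autoImplicit false

open Set Filter Topology
open scoped ContDiff

namespace Pool.Agent.Helper69.SY

open Pool.Agent.Helper91.SY

theorem hv_ : StmtHV := by
  intro E _ _ _ B f hB hf
  have : CompleteSpace E := FiniteDimensional.complete ℝ E
  have hfr : Module.finrank ℝ E = Module.finrank ℝ (E →L[ℝ] ℝ) := by
    rw [← (LinearMap.toContinuousLinearMap (𝕜 := ℝ) (E := E) (F' := ℝ)).finrank_eq]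
    exact (Subspace.dual_finrank_eq (K := ℝ) (V := E)).symm
  have heq : ∀ x, ∃ e : E ≃L[ℝ] (E →L[ℝ] ℝ), (e : E →L[ℝ] (E →L[ℝ] ℝ)) = B x := by
    intro x
    have hinj : Function.Injective ((B x : E →L[ℝ] (E →L[ℝ] ℝ)) : E →ₗ[ℝ] (E →L[ℝ] ℝ)) := by
      rw [← LinearMap.ker_eq_bot, LinearMap.ker_eq_bot']
      intro u hu
      apply hB.nondeg x u
      intro v
      have : B x u = 0 := hu
      rw [this]
      rfl
    refine ⟨(LinearEquiv.ofInjectiveOfFinrankEq _ hinj hfr).toContinuousLinearEquiv, ?_⟩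
    ext u v
    rfl
  have hsm : ContDiff ℝ ∞ (fun x => (B x).inverse) := by
    rw [contDiff_iff_contDiffAt]
    intro x
    obtain ⟨e, he⟩ := heq x
    have h1 : ContDiffAt ℝ ∞ (ContinuousLinearMap.inverse : (E →L[ℝ] (E →L[ℝ] ℝ)) → _) (B x) := by
      rw [← he]
      exact contDiffAt_map_inverse e
    exact h1.comp x hB.smooth.contDiffAt
  refine ⟨fun x => (B x).inverse (fderiv ℝ f x), ?_, ?_⟩
  · exact hsm.clm_apply (hf.fderiv_right (by simp))
  · intro x v
    obtain ⟨e, he⟩ := heq x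
    have h1 : (B x) ((B x).inverse (fderiv ℝ f x)) = fderiv ℝ f x := by
      rw [← he, ContinuousLinearMap.inverse_equiv]
      simp
    rw [h1]

end Pool.Agent.Helper69.SY
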